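import Pool.Agent.Work.MP_be9894_co.AA.BMain

set_option autoImplicit false

namespace Pool.Agent.Results.MP_be9894_co.AlmostEvery

/-- The proportion of labelled oriented trees on `n` vertices (given by their arc relations) that are determined, among all
finite oriented trees, by their strict order quasisymmetric function tends to one. -/
theorem result :
  Filter.Tendsto
    (fun n : ℕ =>
      (Set.ncard {r : Fin n → Fin n → Prop |
          ((SimpleGraph.fromRel r).IsTree ∧ ∀ a b, r a b → ¬ r b a) ∧
          ∀ (β : Type) [Fintype β] (s : β → β → Prop),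
            ((SimpleGraph.fromRel s).IsTree ∧ ∀ a b, s a b → ¬ s b a) →
            (∀ m : ℕ →₀ ℕ,
              Set.ncard {f : Fin n → ℕ | (∀ a b, r a b → f a < f b) ∧
                  ∀ i : ℕ, (Finset.univ.filter (fun a => f a = i)).card = m i} =
              Set.ncard {g : β → ℕ | (∀ a b, s a b → g a < g b) ∧
                  ∀ i : ℕ, (Finset.univ.filter (fun b => g b = i)).card = m i}) →
            Nonempty (r ≃r s)} : ℝ) /
        (Set.ncard {r : Fin n → Fin n → Prop | (SimpleGraph.fromRel r).IsTree ∧ ∀ a b, r a b → ¬ r b a} : ℝ))
    Filter.atTop (nhds 1) :=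
  Pool.Agent.Work.MP_be9894_co.AA.main2

end Pool.Agent.Results.MP_be9894_co.AlmostEvery
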