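import Pool.Agent.Work.MP_be9894_co.Sb.Main

set_option autoImplicit false

namespace Pool.Agent.Results.MP_be9894_co.BranchExtremal

/-- Every oriented tree in which each vertex of degree at least three is a source or a sink is
determined among all oriented trees by its strict order quasisymmetric function. -/
theorem result :
  ∀ (α β : Type) [Fintype α] [PartialOrder α] [Fintype β] [PartialOrder β],
    (SimpleGraph.fromRel (fun a b : α => a ⋖ b)).IsTree →
    (SimpleGraph.fromRel (fun a b : β => a ⋖ b)).IsTree →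
    (∀ c : α, 3 ≤ ((SimpleGraph.fromRel (fun a b : α => a ⋖ b)).neighborSet c).ncard →
      IsMin c ∨ IsMax c) →
    (∀ m : ℕ →₀ ℕ,
      Set.ncard {f : α → ℕ | StrictMono f ∧
          ∀ i : ℕ, (Finset.univ.filter (fun a => f a = i)).card = m i} =
      Set.ncard {g : β → ℕ | StrictMono g ∧
          ∀ i : ℕ, (Finset.univ.filter (fun b => g b = i)).card = m i}) →
    Nonempty (α ≃o β) := by
  intro α β _ _ _ _ hα hβ H Q
  have key : ∀ (γ : Type) [PartialOrder γ],
      SimpleGraph.fromRel (fun a b : γ => a ⋖ b) = SimpleGraph.hasse γ := by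
    intro γ _
    ext a b
    rw [SimpleGraph.fromRel_adj, SimpleGraph.hasse_adj]
    exact ⟨fun h => h.2, fun h => ⟨h.elim (fun h => h.ne) (fun h => h.ne'), h⟩⟩
  rw [key] at hα hβ H
  have three : ∀ c a b e : α, a ≠ b → a ≠ e → b ≠ e → (c ⋖ a ∨ a ⋖ c) → (c ⋖ b ∨ b ⋖ c) →
      (c ⋖ e ∨ e ⋖ c) → IsMin c ∨ IsMax c := by
    intro c a b e h1 h2 h3 ha hb he
    refine H c ?_
    rw [← Set.ncard_eq_three.2 ⟨a, b, e, h1, h2, h3, rfl⟩]
    refine Set.ncard_le_ncard ?_ (Set.toFinite _)
    rintro x (rfl | rfl | rfl)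
    · exact ha
    · exact hb
    · exact he
  refine Pool.Agent.Work.MP_be9894_co.Sb.main hα hβ ?_ ?_ Q
  · intro a b c d ha hb hab hd
    obtain ⟨e, he, _⟩ := exists_covBy_le_of_lt hd
    exact (three c a b e hab (ha.lt.trans he.lt).ne (hb.lt.trans he.lt).ne (Or.inr ha) (Or.inr hb)
      (Or.inl he)).elim ha.lt.not_isMin hd.not_isMax
  · intro a b c d ha hb hab hd
    obtain ⟨e, _, he⟩ := exists_le_covBy_of_lt hd
    exact (three c a b e hab (he.lt.trans ha.lt).ne' (he.lt.trans hb.lt).ne' (Or.inl ha) (Or.inl hb)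
      (Or.inr he)).elim hd.not_isMin ha.lt.not_isMax

end Pool.Agent.Results.MP_be9894_co.BranchExtremal
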